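import Mathlib

/-!
Definitions for the Rees algebra of an ideal `I = (f_1, ..., f_m)` of `R = K[x_1, ..., x_n]`:
the presentation `T = R[y_1, ..., y_m] → R[t]`, its kernel `J`, the ideal `L` of linear relations,
the kernel `H` of `K[y] → R[t]`, fiber type and the conductor `C(I) = L :_R J`.
-/

namespace Pool.Agent.Lib.MP_75e24b_ag

open MvPolynomial

variable {K : Type*} [Field K] {n m : ℕ}

/-- The `R`-algebra map `φ : T = R[y_1, ..., y_m] → R[t]`, `y_j ↦ f_j t`, with `R = K[x_1, ..., x_n]`. -/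
noncomputable def reesMap (f : Fin m → MvPolynomial (Fin n) K) :
    MvPolynomial (Fin m) (MvPolynomial (Fin n) K) →ₐ[MvPolynomial (Fin n) K]
      Polynomial (MvPolynomial (Fin n) K) :=
  MvPolynomial.aeval fun j => Polynomial.C (f j) * Polynomial.X

/-- `J = ker φ`, the defining ideal of the Rees algebra `R[f_1 t, ..., f_m t]`. -/
noncomputable def reesIdeal (f : Fin m → MvPolynomial (Fin n) K) :
    Ideal (MvPolynomial (Fin m) (MvPolynomial (Fin n) K)) :=
  RingHom.ker (reesMap f)

/-- `L`, the ideal of `T` generated by all linear relations `∑ a_i y_i` with `∑ a_i f_i = 0`. -/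
noncomputable def linearIdeal (f : Fin m → MvPolynomial (Fin n) K) :
    Ideal (MvPolynomial (Fin m) (MvPolynomial (Fin n) K)) :=
  Ideal.span {p | ∃ a : Fin m → MvPolynomial (Fin n) K,
    ∑ i, a i * f i = 0 ∧ p = ∑ i, C (a i) * X i}

/-- The `K`-algebra map `φ' : K[y_1, ..., y_m] → R[t]`, `y_j ↦ f_j t`. -/
noncomputable def fiberMap (f : Fin m → MvPolynomial (Fin n) K) :
    MvPolynomial (Fin m) K →ₐ[K] Polynomial (MvPolynomial (Fin n) K) :=
  MvPolynomial.aeval fun j => Polynomial.C (f j) * Polynomial.X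

/-- `H = ker φ'`. -/
noncomputable def fiberIdeal (f : Fin m → MvPolynomial (Fin n) K) :
    Ideal (MvPolynomial (Fin m) K) :=
  RingHom.ker (fiberMap f)

/-- Fiber type: `J = L + H T`. -/
def IsOfFiberType (f : Fin m → MvPolynomial (Fin n) K) : Prop :=
  reesIdeal f = linearIdeal f ⊔
    (fiberIdeal f).map (MvPolynomial.map (C : K →+* MvPolynomial (Fin n) K))

/-- The conductor `C(I) = L :_R J = {r ∈ R : r J ⊆ L}`. -/
noncomputable def conductor (f : Fin m → MvPolynomial (Fin n) K) : Ideal (MvPolynomial (Fin n) K) where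
  carrier := {r | ∀ p ∈ reesIdeal f, C r * p ∈ linearIdeal f}
  add_mem' := by
    intro a b ha hb p hp
    rw [C_add, add_mul]
    exact Ideal.add_mem _ (ha p hp) (hb p hp)
  zero_mem' := by
    intro p _
    rw [C_0, zero_mul]
    exact Ideal.zero_mem _
  smul_mem' := by
    intro c x hx p hp
    rw [smul_eq_mul, C_mul, mul_assoc]
    exact Ideal.mul_mem_left _ _ (hx p hp)

/-- An ideal of `K[x_1, ..., x_n]` generated by squarefree monomials. -/
def IsSquarefreeMonomialIdeal (I : Ideal (MvPolynomial (Fin n) K)) : Prop :=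
  ∃ S : Set (Fin n →₀ ℕ), (∀ u ∈ S, ∀ i, u i ≤ 1) ∧
    I = Ideal.span ((fun u => monomial u (1 : K)) '' S)

end Pool.Agent.Lib.MP_75e24b_ag
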