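import Pool.Agent.Lib.MP_75e24b_ag.General

/-!
The example: `n = 7`, cubic monomials `x1x2x4, x1x3x4, x1x2x6, x3x4x6, x2x5x7, x3x5x7`
(zero-based indices below).
-/

namespace Pool.Agent.Lib.MP_75e24b_ag

open MvPolynomial

variable {K : Type*} [Field K]

/-- exponent vectors as functions -/
def ex : Fin 6 → Fin 7 → ℕ :=
  ![![1,1,0,1,0,0,0], ![1,0,1,1,0,0,0], ![1,1,0,0,0,1,0], ![0,0,1,1,0,1,0],
    ![0,1,0,0,1,0,1], ![0,0,1,0,1,0,1]]

/-- finitely supported version -/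
noncomputable def vx (v : Fin 7 → ℕ) : Fin 7 →₀ ℕ := Finsupp.equivFunOnFinite.symm v
/-- finitely supported version -/
noncomputable def vy (v : Fin 6 → ℕ) : Fin 6 →₀ ℕ := Finsupp.equivFunOnFinite.symm v

@[simp] lemma vx_apply (v : Fin 7 → ℕ) (i : Fin 7) : vx v i = v i := rfl
@[simp] lemma vy_apply (v : Fin 6 → ℕ) (i : Fin 6) : vy v i = v i := rfl

/-- exponent vectors of the generators -/
noncomputable def ee : Fin 6 → (Fin 7 →₀ ℕ) := fun j => vx (ex j)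

/-- The quadric `y_1 y_4 - y_0 y_5`. -/
noncomputable def hq (K : Type*) [Field K] : MvPolynomial (Fin 6) (MvPolynomial (Fin 7) K) :=
  mon K 0 (vy ![0,1,0,0,1,0]) - mon K 0 (vy ![1,0,0,0,0,1])

/-- `N = L + (h)`. -/
noncomputable def NN (K : Type*) [Field K] : Ideal (MvPolynomial (Fin 6) (MvPolynomial (Fin 7) K)) :=
  linearIdeal (fam K ee) ⊔ Ideal.span {hq K}

lemma imgx_apply (a : Fin 7 →₀ ℕ) (b : Fin 6 →₀ ℕ) (i : Fin 7) :
    imgx ee a b i = a i + (b 0 * ex 0 i + b 1 * ex 1 i + b 2 * ex 2 i + b 3 * ex 3 i +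
      b 4 * ex 4 i + b 5 * ex 5 i) := by
  simp [imgx, ee, Fin.sum_univ_six, Finsupp.add_apply]

lemma imgt_eq (b : Fin 6 →₀ ℕ) : imgt b = b 0 + b 1 + b 2 + b 3 + b 4 + b 5 := by
  simp [imgt, Fin.sum_univ_six]

/-- equality of images, in coordinates -/
lemma img_iff (a a' : Fin 7 →₀ ℕ) (b b' : Fin 6 →₀ ℕ) :
    (imgx ee a b = imgx ee a' b') ↔
      (a 0 + b 0 + b 1 + b 2 = a' 0 + b' 0 + b' 1 + b' 2) ∧
      (a 1 + b 0 + b 2 + b 4 = a' 1 + b' 0 + b' 2 + b' 4) ∧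
      (a 2 + b 1 + b 3 + b 5 = a' 2 + b' 1 + b' 3 + b' 5) ∧
      (a 3 + b 0 + b 1 + b 3 = a' 3 + b' 0 + b' 1 + b' 3) ∧
      (a 4 + b 4 + b 5 = a' 4 + b' 4 + b' 5) ∧
      (a 5 + b 2 + b 3 = a' 5 + b' 2 + b' 3) ∧
      (a 6 + b 4 + b 5 = a' 6 + b' 4 + b' 5) := by
  rw [DFunLike.ext_iff]
  simp only [imgx_apply]
  constructor
  · intro h
    have h0 := h 0; have h1 := h 1; have h2 := h 2; have h3 := h 3; have h4 := h 4
    have h5 := h 5; have h6 := h 6
    simp [ex] at h0 h1 h2 h3 h4 h5 h6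
    omega
  · rintro ⟨h0, h1, h2, h3, h4, h5, h6⟩ i
    fin_cases i <;> simp [ex] <;> omega

/-- the rules whose lead term is multiplied by a single variable y lie in L -/
lemma lin_rule (i i' : Fin 6) (a a' : Fin 7 → ℕ) (b b' c : Fin 6 → ℕ)
    (h : ∀ k, a k + ex i k = a' k + ex i' k)
    (hb : ∀ k, b k = c k + if i = k then 1 else 0)
    (hb' : ∀ k, b' k = c k + if i' = k then 1 else 0) :
    mon K (vx a) (vy b) - mon K (vx a') (vy b') ∈ linearIdeal (fam K ee) := by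
  apply binomial_mem_linear' ee i i' (vy c)
  · ext k; simpa [ee] using h k
  · ext k; simp [hb k, Finsupp.single_apply]
  · ext k; simp [hb' k, Finsupp.single_apply]

lemma NN_le_rees : NN K ≤ reesIdeal (fam K ee) := by
  apply sup_le (linear_le_rees _)
  rw [Ideal.span_le, Set.singleton_subset_iff]
  apply binomial_mem_rees
  · rw [img_iff]; simp
  · rw [imgt_eq, imgt_eq]; simp

lemma rees_mem_img {a a' : Fin 7 →₀ ℕ} {b b' : Fin 6 →₀ ℕ}
    (h : mon K a b - mon K a' b' ∈ reesIdeal (fam K ee)) :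
    imgx ee a b = imgx ee a' b' ∧ imgt b = imgt b' := by
  rw [reesIdeal, RingHom.mem_ker, map_sub, sub_eq_zero, mon, mon, reesMap_monomial,
    reesMap_monomial] at h
  rcases (Polynomial.monomial_eq_monomial_iff).1 h with h1 | h1
  · obtain ⟨h1, h2⟩ := h1
    rcases (MvPolynomial.monomial_eq_monomial_iff _ _ _ _).1 h2 with h3 | h3
    · exact ⟨h3.1, h1⟩
    · exact absurd h3.1 one_ne_zero
  · exact absurd h1.1 (by simp)

end Pool.Agent.Lib.MP_75e24b_ag
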