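import Pool.Agent.Lib.MP_75e24b_ag.NormalForm

namespace Pool.Agent.Lib.MP_75e24b_ag

open MvPolynomial

variable {K : Type*} [Field K]

lemma hq_mem_rees : hq K ∈ reesIdeal (fam K ee) :=
  NN_le_rees (Ideal.mem_sup_right (Ideal.subset_span (Set.mem_singleton _)))

lemma hq_mem_fiber :
    hq K ∈ (fiberIdeal (fam K ee)).map (MvPolynomial.map (C : K →+* MvPolynomial (Fin 7) K)) := by
  have h1 : (monomial (vy ![0,1,0,0,1,0]) (1 : K) - monomial (vy ![1,0,0,0,0,1]) (1 : K)) ∈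
      fiberIdeal (fam K ee) := by
    rw [fiberIdeal, RingHom.mem_ker, map_sub, fiberMap_monomial, fiberMap_monomial]
    have h2 : imgt (vy ![0,1,0,0,1,0]) = imgt (vy ![1,0,0,0,0,1]) := by
      rw [imgt_eq, imgt_eq]; simp
    have h3 : ∑ j, (vy ![0,1,0,0,1,0]) j • ee j = ∑ j, (vy ![1,0,0,0,0,1]) j • ee j := by
      ext i
      fin_cases i <;> simp [Fin.sum_univ_six, ee, ex]
    rw [h2, h3, sub_self]
  have h4 := Ideal.mem_map_of_mem (MvPolynomial.map (C : K →+* MvPolynomial (Fin 7) K)) h1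
  rw [map_sub, map_monomial, map_monomial] at h4
  exact h4

theorem fiberType : IsOfFiberType (fam K ee) := by
  apply le_antisymm
  · rw [rees_eq_NN]
    refine sup_le_sup le_rfl ?_
    rw [Ideal.span_le, Set.singleton_subset_iff]
    exact hq_mem_fiber
  · exact sup_le (linear_le_rees _) (fiber_le_rees _)

/-- `x_5^2 h ∈ L`. -/
lemma sq_mul_hq : (C (monomial (Finsupp.single 5 2) (1 : K)) * hq K) ∈ linearIdeal (fam K ee) := by
  have e1 : Finsupp.single (5 : Fin 7) 2 = vx ![0,0,0,0,0,2,0] := by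
    ext i; fin_cases i <;> simp
  have e2 : (C (monomial (Finsupp.single 5 2) (1 : K)) :
      MvPolynomial (Fin 6) (MvPolynomial (Fin 7) K)) = mon K (vx ![0,0,0,0,0,2,0]) 0 := by
    rw [e1]; rfl
  rw [e2, hq, mul_sub, mon_mul, mon_mul, add_zero, zero_add, zero_add]
  have h1 : mon K (vx ![0,0,0,0,0,2,0]) (vy ![0,1,0,0,1,0]) -
      mon K (vx ![1,0,0,0,0,1,0]) (vy ![0,0,0,1,1,0]) ∈ linearIdeal (fam K ee) :=
    lin_rule 1 3 _ _ _ _ ![0,0,0,0,1,0] (by decide) (by decide) (by decide)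
  have h2 : mon K (vx ![1,0,0,0,0,1,0]) (vy ![0,0,0,1,1,0]) -
      mon K (vx ![0,0,0,0,1,0,1]) (vy ![0,0,1,1,0,0]) ∈ linearIdeal (fam K ee) :=
    lin_rule 4 2 _ _ _ _ ![0,0,0,1,0,0] (by decide) (by decide) (by decide)
  have h3 : mon K (vx ![0,0,0,0,1,0,1]) (vy ![0,0,1,1,0,0]) -
      mon K (vx ![0,0,0,1,0,1,0]) (vy ![0,0,1,0,0,1]) ∈ linearIdeal (fam K ee) :=
    lin_rule 3 5 _ _ _ _ ![0,0,1,0,0,0] (by decide) (by decide) (by decide)
  have h4 : mon K (vx ![0,0,0,1,0,1,0]) (vy ![0,0,1,0,0,1]) -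
      mon K (vx ![0,0,0,0,0,2,0]) (vy ![1,0,0,0,0,1]) ∈ linearIdeal (fam K ee) :=
    lin_rule 2 0 _ _ _ _ ![0,0,0,0,0,1] (by decide) (by decide) (by decide)
  have := Ideal.add_mem _ (Ideal.add_mem _ (Ideal.add_mem _ h1 h2) h3) h4
  simpa using this

theorem sq_mem_conductor :
    monomial (Finsupp.single 5 2) (1 : K) ∈ conductor (fam K ee) := by
  intro p hp
  rw [rees_eq_NN, NN, Submodule.mem_sup] at hp
  obtain ⟨l, hl, q, hq', rfl⟩ := hp
  obtain ⟨c, rfl⟩ := Ideal.mem_span_singleton'.1 hq'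
  rw [mul_add]
  refine Ideal.add_mem _ (Ideal.mul_mem_left _ _ hl) ?_
  rw [mul_left_comm]
  exact Ideal.mul_mem_left _ _ sq_mul_hq

/-- the values of `x_i` in the dual numbers -/
noncomputable def sv (K : Type*) [Field K] : Fin 7 → DualNumber K :=
  ![DualNumber.eps, 0, 0, 0, 0, DualNumber.eps, 0]

/-- the values of `y_j` in the dual numbers -/
noncomputable def tv (K : Type*) [Field K] : Fin 6 → DualNumber K := ![0, 1, 0, 1, 1, 0]

/-- a `K[ε]`-point of the symmetric algebra -/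
noncomputable def pt (K : Type*) [Field K] :
    MvPolynomial (Fin 6) (MvPolynomial (Fin 7) K) →+* DualNumber K :=
  MvPolynomial.eval₂Hom (MvPolynomial.aeval (sv K) : MvPolynomial (Fin 7) K →ₐ[K] DualNumber K)
    (tv K)

lemma pt_mon (a : Fin 7 →₀ ℕ) (b : Fin 6 →₀ ℕ) :
    pt K (mon K a b) = (∏ i, sv K i ^ a i) * ∏ j, tv K j ^ b j := by
  rw [pt, mon, eval₂Hom_monomial, Finsupp.prod_fintype _ _ (by intro i; simp)]
  congr 1
  change (aeval (sv K)) (monomial a (1 : K)) = _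
  rw [aeval_monomial, Finsupp.prod_fintype _ _ (by intro i; simp), map_one, one_mul]

lemma linear_le_ker : linearIdeal (fam K ee) ≤ RingHom.ker (pt K) := by
  apply linear_le_of_taylor
  intro i i'
  rw [RingHom.mem_ker, map_sub, pt_mon, pt_mon]
  have hee : DualNumber.eps * DualNumber.eps = (0 : DualNumber K) := DualNumber.eps_mul_eps
  have h6 : ∀ (f : Fin 6 → DualNumber K), ∏ j, f j = f 0 * f 1 * f 2 * f 3 * f 4 * f 5 := by
    intro f; simp [Fin.prod_univ_six]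
  have h7 : ∀ (f : Fin 7 → DualNumber K), ∏ j, f j = f 0 * f 1 * f 2 * f 3 * f 4 * f 5 * f 6 := by
    intro f; simp [Fin.prod_univ_seven]
  rw [h6, h6, h7, h7]
  fin_cases i <;> fin_cases i' <;> simp [ee, ex, sv, tv, hee]

theorem not_mem_conductor :
    monomial (Finsupp.single 5 1) (1 : K) ∉ conductor (fam K ee) := by
  intro h
  have h1 := linear_le_ker (h _ hq_mem_rees)
  have e1 : Finsupp.single (5 : Fin 7) 1 = vx ![0,0,0,0,0,1,0] := by
    ext i; fin_cases i <;> simp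
  have e2 : (C (monomial (Finsupp.single 5 1) (1 : K)) :
      MvPolynomial (Fin 6) (MvPolynomial (Fin 7) K)) = mon K (vx ![0,0,0,0,0,1,0]) 0 := by
    rw [e1]; rfl
  rw [e2, hq, mul_sub, mon_mul, mon_mul, add_zero, zero_add, zero_add, RingHom.mem_ker, map_sub,
    pt_mon, pt_mon] at h1
  have h2 : (DualNumber.eps : DualNumber K) = 0 := by
    simpa [Fin.prod_univ_six, Fin.prod_univ_seven, sv, tv] using h1
  have h3 := congrArg TrivSqZeroExt.snd h2
  simp at h3

end Pool.Agent.Lib.MP_75e24b_ag
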