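import Pool.Agent.Lib.MP_75e24b_ag.Defs

/-!
General facts on monomial families: `f_j = x^{e_j}`.
-/

namespace Pool.Agent.Lib.MP_75e24b_ag

open MvPolynomial

variable {K : Type*} [Field K] {n m : ℕ}

lemma smul_eq_C_C_mul (c : K) (p : MvPolynomial (Fin m) (MvPolynomial (Fin n) K)) :
    c • p = C (C c) * p := by
  rw [Algebra.smul_def]; rfl

/-- The monomial `x^a y^b` of `T`. -/
noncomputable def mon (K : Type*) [Field K] {n m : ℕ} (a : Fin n →₀ ℕ) (b : Fin m →₀ ℕ) :
    MvPolynomial (Fin m) (MvPolynomial (Fin n) K) :=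
  monomial b (monomial a (1 : K))

/-- the monomial family -/
noncomputable def fam (K : Type*) [Field K] {n m : ℕ} (e : Fin m → (Fin n →₀ ℕ)) :
    Fin m → MvPolynomial (Fin n) K := fun j => monomial (e j) 1

lemma mon_mul (a a' : Fin n →₀ ℕ) (b b' : Fin m →₀ ℕ) :
    mon K a b * mon K a' b' = mon K (a + a') (b + b') := by
  simp [mon, monomial_mul]

/-- total degree in `x` of the image -/
noncomputable def imgx (e : Fin m → (Fin n →₀ ℕ)) (a : Fin n →₀ ℕ) (b : Fin m →₀ ℕ) : Fin n →₀ ℕ :=
  a + ∑ j, b j • e j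

/-- degree in `t` of the image -/
def imgt (b : Fin m →₀ ℕ) : ℕ := ∑ j, b j

lemma prod_fam (e : Fin m → (Fin n →₀ ℕ)) (b : Fin m →₀ ℕ) :
    ∏ x, fam K e x ^ b x = monomial (∑ j, b j • e j) (1 : K) := by
  rw [monomial_sum_one]
  simp only [fam, monomial_pow, one_pow]

lemma reesMap_monomial (e : Fin m → (Fin n →₀ ℕ)) (a : Fin n →₀ ℕ) (b : Fin m →₀ ℕ) (c : K) :
    reesMap (fam K e) (monomial b (monomial a c)) =
      Polynomial.monomial (imgt b) (monomial (imgx e a b) c) := by
  rw [reesMap, aeval_monomial]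
  rw [Finsupp.prod_fintype _ _ (by intro i; simp)]
  simp only [mul_pow, ← Polynomial.C_pow, Finset.prod_mul_distrib, Finset.prod_pow_eq_pow_sum]
  rw [← map_prod Polynomial.C, prod_fam]
  rw [← Polynomial.C_mul_X_pow_eq_monomial, Polynomial.algebraMap_eq, ← mul_assoc,
    ← Polynomial.C_mul, monomial_mul, mul_one, imgx, imgt]

lemma fiberMap_monomial (e : Fin m → (Fin n →₀ ℕ)) (b : Fin m →₀ ℕ) (c : K) :
    fiberMap (fam K e) (monomial b c) =
      Polynomial.monomial (imgt b) (monomial (∑ j, b j • e j) c) := by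
  rw [fiberMap, aeval_monomial]
  rw [Finsupp.prod_fintype _ _ (by intro i; simp)]
  simp only [mul_pow, ← Polynomial.C_pow, Finset.prod_mul_distrib, Finset.prod_pow_eq_pow_sum]
  rw [← map_prod Polynomial.C, prod_fam]
  rw [← Polynomial.C_mul_X_pow_eq_monomial]
  have : algebraMap K (Polynomial (MvPolynomial (Fin n) K)) c = Polynomial.C (C c) := rfl
  rw [this, ← mul_assoc, ← Polynomial.C_mul, C_mul_monomial, mul_one, imgt]

/-- Binomials with equal image lie in `J`. -/
lemma binomial_mem_rees (e : Fin m → (Fin n →₀ ℕ)) {a a' : Fin n →₀ ℕ} {b b' : Fin m →₀ ℕ}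
    (hx : imgx e a b = imgx e a' b') (ht : imgt b = imgt b') :
    mon K a b - mon K a' b' ∈ reesIdeal (fam K e) := by
  rw [reesIdeal, RingHom.mem_ker, map_sub, mon, mon, reesMap_monomial, reesMap_monomial, hx, ht,
    sub_self]

/-- Linear binomials lie in `L`. -/
lemma binomial_mem_linear (e : Fin m → (Fin n →₀ ℕ)) {a a' : Fin n →₀ ℕ} {i i' : Fin m}
    (h : a + e i = a' + e i') :
    mon K a (Finsupp.single i 1) - mon K a' (Finsupp.single i' 1) ∈ linearIdeal (fam K e) := by
  apply Ideal.subset_span
  refine ⟨fun k => (if k = i then monomial a 1 else 0) - (if k = i' then monomial a' 1 else 0),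
    ?_, ?_⟩
  · simp only [sub_mul, ite_mul, zero_mul, Finset.sum_sub_distrib, Finset.sum_ite_eq',
      Finset.mem_univ, if_true, fam, monomial_mul, mul_one]
    rw [h, sub_self]
  · simp only [map_sub, sub_mul, Finset.sum_sub_distrib, apply_ite C, C_0, ite_mul, zero_mul,
      Finset.sum_ite_eq', Finset.mem_univ, if_true, mon]
    rw [C_mul_X_eq_monomial, C_mul_X_eq_monomial]

/-- multiples of linear binomials -/
lemma binomial_mem_linear' (e : Fin m → (Fin n →₀ ℕ)) {a a' : Fin n →₀ ℕ} {b b' : Fin m →₀ ℕ}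
    (i i' : Fin m) (c : Fin m →₀ ℕ) (h : a + e i = a' + e i')
    (hb : b = c + Finsupp.single i 1) (hb' : b' = c + Finsupp.single i' 1) :
    mon K a b - mon K a' b' ∈ linearIdeal (fam K e) := by
  have := Ideal.mul_mem_left (linearIdeal (fam K e)) (mon K 0 c)
    (binomial_mem_linear (K := K) e h)
  rwa [mul_sub, mon_mul, mon_mul, zero_add, zero_add, ← hb, ← hb'] at this

/-- `L ⊆ J`. -/
lemma linear_le_rees (f : Fin m → MvPolynomial (Fin n) K) : linearIdeal f ≤ reesIdeal f := by
  rw [linearIdeal, Ideal.span_le]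
  rintro p ⟨a, ha, rfl⟩
  rw [SetLike.mem_coe, reesIdeal, RingHom.mem_ker]
  simp only [map_sum, map_mul, reesMap, aeval_C, aeval_X, Polynomial.algebraMap_eq]
  have : ∑ x, Polynomial.C (a x) * (Polynomial.C (f x) * Polynomial.X) =
      Polynomial.C (∑ i, a i * f i) * Polynomial.X := by
    rw [map_sum, Finset.sum_mul]
    refine Finset.sum_congr rfl fun i _ => ?_
    rw [Polynomial.C_mul, mul_assoc]
  rw [this, ha, Polynomial.C_0, zero_mul]

/-- `H T ⊆ J`. -/
lemma fiber_le_rees (f : Fin m → MvPolynomial (Fin n) K) :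
    (fiberIdeal f).map (MvPolynomial.map (C : K →+* MvPolynomial (Fin n) K)) ≤ reesIdeal f := by
  rw [Ideal.map_le_iff_le_comap]
  intro p hp
  rw [Ideal.mem_comap, reesIdeal, RingHom.mem_ker]
  rw [fiberIdeal, RingHom.mem_ker] at hp
  have key : ∀ q : MvPolynomial (Fin m) K,
      reesMap f (MvPolynomial.map (C : K →+* MvPolynomial (Fin n) K) q) = fiberMap f q := by
    intro q
    induction q using MvPolynomial.induction_on with
    | C a => simp [reesMap, fiberMap]
    | add p q hp hq => simp only [map_add, hp, hq]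
    | mul_X p i hp => 
      rw [map_mul, map_mul, map_mul, hp, map_X]
      simp [reesMap, fiberMap]
  rw [key, hp]

/-- `J` is contained in every ideal containing all binomials with equal image. -/
lemma rees_le_of_binomials (e : Fin m → (Fin n →₀ ℕ))
    (N : Ideal (MvPolynomial (Fin m) (MvPolynomial (Fin n) K)))
    (h : ∀ (a a' : Fin n →₀ ℕ) (b b' : Fin m →₀ ℕ), imgx e a b = imgx e a' b' →
      imgt b = imgt b' → mon K a b - mon K a' b' ∈ N) :
    reesIdeal (fam K e) ≤ N := by
  classical
  -- a section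
  let r : ℕ → (Fin n →₀ ℕ) → MvPolynomial (Fin m) (MvPolynomial (Fin n) K) := fun k q =>
    if hh : ∃ ab : (Fin n →₀ ℕ) × (Fin m →₀ ℕ), imgx e ab.1 ab.2 = q ∧ imgt ab.2 = k then
      mon K hh.choose.1 hh.choose.2 else 0
  let ρ : Polynomial (MvPolynomial (Fin n) K) →ₗ[K]
      MvPolynomial (Fin m) (MvPolynomial (Fin n) K) :=
    Polynomial.lsum fun k => (basisMonomials (Fin n) K).constr K (fun q => r k q)
  have hρ : ∀ (k : ℕ) (q : Fin n →₀ ℕ) (c : K),
      ρ (Polynomial.monomial k (monomial q c)) = c • r k q := by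
    intro k q c
    have h1 : (monomial q c : MvPolynomial (Fin n) K) = c • basisMonomials (Fin n) K q := by
      rw [coe_basisMonomials, smul_monomial, smul_eq_mul, mul_one]
    simp only [ρ, Polynomial.lsum_apply]
    rw [Polynomial.sum_monomial_index _ _ (by simp), h1, map_smul, Module.Basis.constr_basis]
  have key : ∀ p, p - ρ (reesMap (fam K e) p) ∈ N := by
    intro p
    induction p using MvPolynomial.induction_on' with
    | add p q hp hq =>
      have : p + q - ρ (reesMap (fam K e) (p + q)) =
        (p - ρ (reesMap (fam K e) p)) + (q - ρ (reesMap (fam K e) q)) := by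
        rw [map_add, map_add]; ring
      rw [this]; exact Ideal.add_mem _ hp hq
    | monomial b s =>
      induction s using MvPolynomial.induction_on' with
      | add p q hp hq =>
        have : monomial b (p + q) - ρ (reesMap (fam K e) (monomial b (p + q))) =
          (monomial b p - ρ (reesMap (fam K e) (monomial b p))) +
            (monomial b q - ρ (reesMap (fam K e) (monomial b q))) := by
          rw [map_add, map_add, map_add]; ring
        rw [this]; exact Ideal.add_mem _ hp hq
      | monomial a c =>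
        rw [reesMap_monomial, hρ]
        have hex : ∃ ab : (Fin n →₀ ℕ) × (Fin m →₀ ℕ),
            imgx e ab.1 ab.2 = imgx e a b ∧ imgt ab.2 = imgt b := ⟨(a, b), rfl, rfl⟩
        have hr : r (imgt b) (imgx e a b) = mon K hex.choose.1 hex.choose.2 := by
          simp only [r]; rw [dif_pos hex]
        rw [hr]
        have h2 : monomial b (monomial a c) - c • mon K hex.choose.1 hex.choose.2 =
            C (C c) * (mon K a b - mon K hex.choose.1 hex.choose.2) := by
          rw [mul_sub, ← smul_eq_C_C_mul, ← smul_eq_C_C_mul]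
          congr 1
          rw [mon, smul_eq_C_C_mul, C_mul_monomial, C_mul_monomial, mul_one]
        rw [h2]
        exact Ideal.mul_mem_left _ _ (h _ _ _ _ hex.choose_spec.1.symm hex.choose_spec.2.symm)
  intro p hp
  have := key p
  rw [reesIdeal, RingHom.mem_ker] at hp
  rwa [hp, map_zero, sub_zero] at this

/-- The linear relations of a monomial family are generated by the Taylor binomials. -/
lemma linear_le_of_taylor (e : Fin m → (Fin n →₀ ℕ))
    (N : Ideal (MvPolynomial (Fin m) (MvPolynomial (Fin n) K)))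
    (h : ∀ i i' : Fin m, mon K (e i' - e i) (Finsupp.single i 1) -
      mon K (e i - e i') (Finsupp.single i' 1) ∈ N) :
    linearIdeal (fam K e) ≤ N := by
  classical
  have h' : ∀ (i i' : Fin m) (a a' : Fin n →₀ ℕ), a + e i = a' + e i' →
      mon K a (Finsupp.single i 1) - mon K a' (Finsupp.single i' 1) ∈ N := by
    intro i i' a a' haa
    have h1 : a = (a - (e i' - e i)) + (e i' - e i) := by
      ext k
      have := DFunLike.congr_fun haa k
      simp only [Finsupp.coe_add, Pi.add_apply, Finsupp.coe_tsub, Pi.sub_apply] at this ⊢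
      omega
    have h2 : a' = (a - (e i' - e i)) + (e i - e i') := by
      ext k
      have := DFunLike.congr_fun haa k
      simp only [Finsupp.coe_add, Pi.add_apply, Finsupp.coe_tsub, Pi.sub_apply] at this ⊢
      omega
    have := Ideal.mul_mem_left N (mon K (a - (e i' - e i)) 0) (h i i')
    rw [mul_sub, mon_mul, mon_mul, zero_add, zero_add, ← h1, ← h2] at this
    exact this
  let r : (Fin n →₀ ℕ) → MvPolynomial (Fin m) (MvPolynomial (Fin n) K) := fun q =>
    if hh : ∃ ai : (Fin n →₀ ℕ) × Fin m, ai.1 + e ai.2 = q then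
      mon K hh.choose.1 (Finsupp.single hh.choose.2 1) else 0
  let ρ : MvPolynomial (Fin n) K →ₗ[K] MvPolynomial (Fin m) (MvPolynomial (Fin n) K) :=
    (basisMonomials (Fin n) K).constr K r
  have hρ : ∀ (q : Fin n →₀ ℕ) (c : K), ρ (monomial q c) = c • r q := by
    intro q c
    have h1 : (monomial q c : MvPolynomial (Fin n) K) = c • basisMonomials (Fin n) K q := by
      rw [coe_basisMonomials, smul_monomial, smul_eq_mul, mul_one]
    rw [h1, map_smul, Module.Basis.constr_basis]
  have key : ∀ (i : Fin m) (p : MvPolynomial (Fin n) K), C p * X i - ρ (p * fam K e i) ∈ N := by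
    intro i p
    induction p using MvPolynomial.induction_on' with
    | add p q hp hq =>
      have : C (p + q) * X i - ρ ((p + q) * fam K e i) =
        (C p * X i - ρ (p * fam K e i)) + (C q * X i - ρ (q * fam K e i)) := by
        rw [C_add, add_mul, add_mul, map_add]; ring
      rw [this]; exact Ideal.add_mem _ hp hq
    | monomial a c =>
      rw [fam, monomial_mul, mul_one, hρ]
      have hex : ∃ ai : (Fin n →₀ ℕ) × Fin m, ai.1 + e ai.2 = a + e i := ⟨(a, i), rfl⟩
      have hr : r (a + e i) = mon K hex.choose.1 (Finsupp.single hex.choose.2 1) := by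
        simp only [r]; rw [dif_pos hex]
      rw [hr]
      have h2 : C (monomial a c) * X i - c • mon K hex.choose.1 (Finsupp.single hex.choose.2 1) =
          C (C c) * (mon K a (Finsupp.single i 1) -
            mon K hex.choose.1 (Finsupp.single hex.choose.2 1)) := by
        have e1 : C (monomial a c) * X i = C (C c) * mon K a (Finsupp.single i 1) := by
          rw [mon, C_mul_monomial, C_mul_monomial, mul_one, C_mul_X_eq_monomial]
        rw [mul_sub, ← e1, ← smul_eq_C_C_mul]
      rw [h2]
      exact Ideal.mul_mem_left _ _ (h' _ _ _ _ hex.choose_spec.symm)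
  rw [linearIdeal, Ideal.span_le]
  rintro p ⟨a, ha, rfl⟩
  have h3 : ∑ i, C (a i) * X i = ∑ i, (C (a i) * X i - ρ (a i * fam K e i)) := by
    rw [Finset.sum_sub_distrib, ← map_sum, ha, map_zero, sub_zero]
  rw [SetLike.mem_coe, h3]
  exact Ideal.sum_mem _ fun i _ => key i (a i)

end Pool.Agent.Lib.MP_75e24b_ag
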