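import Pool.Agent.Lib.MP_75e24b_ag.Example

namespace Pool.Agent.Lib.MP_75e24b_ag

open MvPolynomial

variable {K : Type*} [Field K]

/-- A monomial `x^a y^b` is standard: not divisible by any of the nine lead terms. -/
def Std (a : Fin 7 →₀ ℕ) (b : Fin 6 →₀ ℕ) : Prop :=
  (a 1 = 0 ∨ b 1 = 0) ∧ (a 3 = 0 ∨ b 2 = 0) ∧ (a 0 = 0 ∨ a 3 = 0 ∨ b 4 = 0) ∧
  (a 0 = 0 ∨ b 3 = 0) ∧ (a 0 = 0 ∨ a 3 = 0 ∨ b 5 = 0) ∧ (a 4 = 0 ∨ a 6 = 0 ∨ b 2 = 0) ∧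
  (a 3 = 0 ∨ a 5 = 0 ∨ b 5 = 0) ∧ (a 2 = 0 ∨ b 4 = 0) ∧ (b 1 = 0 ∨ b 4 = 0)

/-- weight for termination -/
def wt (a : Fin 7 →₀ ℕ) (b : Fin 6 →₀ ℕ) : ℕ :=
  138 * a 0 + 583 * a 1 + 868 * a 2 + 822 * a 3 + 783 * a 4 + 65 * a 5 + 262 * a 6 +
  121 * b 0 + 508 * b 1 + 780 * b 2 + 461 * b 3 + 484 * b 4 + 668 * b 5

/-- replacing a divisor `x^la y^lb` by `x^ta y^tb` -/
lemma step (la ta : Fin 7 → ℕ) (lb tb : Fin 6 → ℕ)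
    (hmem : mon K (vx la) (vy lb) - mon K (vx ta) (vy tb) ∈ NN K)
    (a : Fin 7 →₀ ℕ) (b : Fin 6 →₀ ℕ) (ha : ∀ i, la i ≤ a i) (hb : ∀ j, lb j ≤ b j) :
    ∃ (a' : Fin 7 →₀ ℕ) (b' : Fin 6 →₀ ℕ), (∀ i, a' i = a i - la i + ta i) ∧
      (∀ j, b' j = b j - lb j + tb j) ∧ mon K a b - mon K a' b' ∈ NN K := by
  refine ⟨a - vx la + vx ta, b - vy lb + vy tb, fun i => by simp, fun j => by simp, ?_⟩
  have h := Ideal.mul_mem_left (NN K) (mon K (a - vx la) (b - vy lb)) hmem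
  rw [mul_sub, mon_mul, mon_mul] at h
  have h1 : a - vx la + vx la = a := by
    ext i; have := ha i; simp; omega
  have h2 : b - vy lb + vy lb = b := by
    ext i; have := hb i; simp; omega
  rwa [h1, h2] at h

lemma rule1 : mon K (vx ![0,1,0,0,0,0,0]) (vy ![0,1,0,0,0,0]) -
    mon K (vx ![0,0,1,0,0,0,0]) (vy ![1,0,0,0,0,0]) ∈ NN K :=
  Ideal.mem_sup_left (lin_rule 1 0 _ _ _ _ 0 (by decide) (by decide) (by decide))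

lemma rule2 : mon K (vx ![0,0,0,1,0,0,0]) (vy ![0,0,1,0,0,0]) -
    mon K (vx ![0,0,0,0,0,1,0]) (vy ![1,0,0,0,0,0]) ∈ NN K :=
  Ideal.mem_sup_left (lin_rule 2 0 _ _ _ _ 0 (by decide) (by decide) (by decide))

lemma rule3 : mon K (vx ![1,0,0,1,0,0,0]) (vy ![0,0,0,0,1,0]) -
    mon K (vx ![0,0,0,0,1,0,1]) (vy ![1,0,0,0,0,0]) ∈ NN K :=
  Ideal.mem_sup_left (lin_rule 4 0 _ _ _ _ 0 (by decide) (by decide) (by decide))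

lemma rule4 : mon K (vx ![1,0,0,0,0,0,0]) (vy ![0,0,0,1,0,0]) -
    mon K (vx ![0,0,0,0,0,1,0]) (vy ![0,1,0,0,0,0]) ∈ NN K :=
  Ideal.mem_sup_left (lin_rule 3 1 _ _ _ _ 0 (by decide) (by decide) (by decide))

lemma rule5 : mon K (vx ![1,0,0,1,0,0,0]) (vy ![0,0,0,0,0,1]) -
    mon K (vx ![0,0,0,0,1,0,1]) (vy ![0,1,0,0,0,0]) ∈ NN K :=
  Ideal.mem_sup_left (lin_rule 5 1 _ _ _ _ 0 (by decide) (by decide) (by decide))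

lemma rule6 : mon K (vx ![0,0,0,0,1,0,1]) (vy ![0,0,1,0,0,0]) -
    mon K (vx ![1,0,0,0,0,1,0]) (vy ![0,0,0,0,1,0]) ∈ NN K :=
  Ideal.mem_sup_left (lin_rule 2 4 _ _ _ _ 0 (by decide) (by decide) (by decide))

lemma rule7 : mon K (vx ![0,0,0,1,0,1,0]) (vy ![0,0,0,0,0,1]) -
    mon K (vx ![0,0,0,0,1,0,1]) (vy ![0,0,0,1,0,0]) ∈ NN K :=
  Ideal.mem_sup_left (lin_rule 5 3 _ _ _ _ 0 (by decide) (by decide) (by decide))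

lemma rule8 : mon K (vx ![0,0,1,0,0,0,0]) (vy ![0,0,0,0,1,0]) -
    mon K (vx ![0,1,0,0,0,0,0]) (vy ![0,0,0,0,0,1]) ∈ NN K :=
  Ideal.mem_sup_left (lin_rule 4 5 _ _ _ _ 0 (by decide) (by decide) (by decide))

lemma rule9 : mon K (vx ![0,0,0,0,0,0,0]) (vy ![0,1,0,0,1,0]) -
    mon K (vx ![0,0,0,0,0,0,0]) (vy ![1,0,0,0,0,1]) ∈ NN K := by
  have h0 : vx ![0,0,0,0,0,0,0] = 0 := by ext i; fin_cases i <;> rfl
  rw [h0]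
  exact Ideal.mem_sup_right (Ideal.subset_span (Set.mem_singleton _))

lemma step' (la ta : Fin 7 → ℕ) (lb tb : Fin 6 → ℕ)
    (hmem : mon K (vx la) (vy lb) - mon K (vx ta) (vy tb) ∈ NN K)
    (a : Fin 7 →₀ ℕ) (b : Fin 6 →₀ ℕ) (ha : ∀ i, la i ≤ a i) (hb : ∀ j, lb j ≤ b j)
    (hw : wt (vx ta) (vy tb) < wt (vx la) (vy lb)) :
    ∃ (a' : Fin 7 →₀ ℕ) (b' : Fin 6 →₀ ℕ), wt a' b' < wt a b ∧
      mon K a b - mon K a' b' ∈ NN K := by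
  obtain ⟨a', b', h1, h2, h3⟩ := step la ta lb tb hmem a b ha hb
  refine ⟨a', b', ?_, h3⟩
  simp only [wt, vx_apply, vy_apply] at hw
  simp only [wt, h1, h2]
  have := ha 0; have := ha 1; have := ha 2; have := ha 3; have := ha 4; have := ha 5
  have := ha 6
  have := hb 0; have := hb 1; have := hb 2; have := hb 3; have := hb 4; have := hb 5
  omega

lemma exists_std (w : ℕ) : ∀ (a : Fin 7 →₀ ℕ) (b : Fin 6 →₀ ℕ), wt a b = w →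
    ∃ (a' : Fin 7 →₀ ℕ) (b' : Fin 6 →₀ ℕ), Std a' b' ∧ mon K a b - mon K a' b' ∈ NN K := by
  induction w using Nat.strong_induction_on with
  | _ w ih =>
    intro a b hw
    by_cases hs : Std a b
    · exact ⟨a, b, hs, by rw [sub_self]; exact Ideal.zero_mem _⟩
    · have key : ∃ (a' : Fin 7 →₀ ℕ) (b' : Fin 6 →₀ ℕ), wt a' b' < wt a b ∧
          mon K a b - mon K a' b' ∈ NN K := by
        simp only [Std, not_and_or] at hs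
        rcases hs with hs | hs | hs | hs | hs | hs | hs | hs | hs <;>
          simp only [not_or] at hs
        · refine step' _ _ _ _ rule1 a b ?_ ?_ (by simp [wt]) <;>
          · intro i; fin_cases i <;> simp <;> omega
        · refine step' _ _ _ _ rule2 a b ?_ ?_ (by simp [wt]) <;>
          · intro i; fin_cases i <;> simp <;> omega
        · refine step' _ _ _ _ rule3 a b ?_ ?_ (by simp [wt]) <;>
          · intro i; fin_cases i <;> simp <;> omega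
        · refine step' _ _ _ _ rule4 a b ?_ ?_ (by simp [wt]) <;>
          · intro i; fin_cases i <;> simp <;> omega
        · refine step' _ _ _ _ rule5 a b ?_ ?_ (by simp [wt]) <;>
          · intro i; fin_cases i <;> simp <;> omega
        · refine step' _ _ _ _ rule6 a b ?_ ?_ (by simp [wt]) <;>
          · intro i; fin_cases i <;> simp <;> omega
        · refine step' _ _ _ _ rule7 a b ?_ ?_ (by simp [wt]) <;>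
          · intro i; fin_cases i <;> simp <;> omega
        · refine step' _ _ _ _ rule8 a b ?_ ?_ (by simp [wt]) <;>
          · intro i; fin_cases i <;> simp <;> omega
        · refine step' _ _ _ _ rule9 a b ?_ ?_ (by simp [wt]) <;>
          · intro i; fin_cases i <;> simp <;> omega
      obtain ⟨a', b', h1, h2⟩ := key
      obtain ⟨a'', b'', h3, h4⟩ := ih (wt a' b') (hw ▸ h1) a' b' rfl
      refine ⟨a'', b'', h3, ?_⟩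
      have : mon K a b - mon K a'' b'' = (mon K a b - mon K a' b') + (mon K a' b' - mon K a'' b'') := by
        ring
      rw [this]
      exact Ideal.add_mem _ h2 h4

lemma sgn2 {a a' b b' : ℕ} (s : a = 0 ∨ b = 0) :
    ¬ ((a : ℤ) - a' > 0 ∧ (b : ℤ) - b' > 0) := by omega

lemma sgn2' {a a' b b' : ℕ} (s : a' = 0 ∨ b' = 0) :
    ¬ ((a : ℤ) - a' < 0 ∧ (b : ℤ) - b' < 0) := by omega

lemma sgn3 {a a' b b' c c' : ℕ} (s : a = 0 ∨ b = 0 ∨ c = 0) :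
    ¬ ((a : ℤ) - a' > 0 ∧ (b : ℤ) - b' > 0 ∧ (c : ℤ) - c' > 0) := by omega

lemma sgn3' {a a' b b' c c' : ℕ} (s : a' = 0 ∨ b' = 0 ∨ c' = 0) :
    ¬ ((a : ℤ) - a' < 0 ∧ (b : ℤ) - b' < 0 ∧ (c : ℤ) - c' < 0) := by omega

lemma z4 (u0 u2 u3 e0 e1 e2 e3 e4 e5 u4 u6 : ℤ)
    (hs : e0 + e1 + e2 + e3 + e4 + e5 = 0)
    (x0 : u0 + e0 + e1 + e2 = 0) (x2 : u2 + e1 + e3 + e5 = 0)
    (x3 : u3 + e0 + e1 + e3 = 0) (x4 : u4 + e4 + e5 = 0) (x6 : u6 + e4 + e5 = 0)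
    (h : 0 < e4)
    (p9 : ¬ (e1 > 0 ∧ e4 > 0)) (p8 : ¬ (u2 > 0 ∧ e4 > 0))
    (p4 : ¬ (u0 > 0 ∧ e3 > 0)) (p3 : ¬ (u0 > 0 ∧ u3 > 0 ∧ e4 > 0))
    (q6 : ¬ (u4 < 0 ∧ u6 < 0 ∧ e2 < 0)) : False := by
  have a1 : e1 ≤ 0 := by clear p8 p4 p3 q6; omega
  have a2 : u2 ≤ 0 := by clear p9 p4 p3 q6; omega
  have a3 : u0 > 0 := by clear p8 p4 p3 q6 p9; omega
  have a4 : e3 ≤ 0 := by clear p8 p9 p3 q6; omega
  have a5 : u3 ≤ 0 := by clear p8 p9 p4 q6; omega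
  clear p9 p8 p4 p3
  omega

lemma z2 (u3 u4 u6 e2 e5 : ℤ) (x3 : u3 = e2 + e5) (x4 : u4 + e5 = 0) (x6 : u6 + e5 = 0)
    (p2 : ¬ (u3 > 0 ∧ e2 > 0)) (q2 : ¬ (u3 < 0 ∧ e2 < 0))
    (p6 : ¬ (u4 > 0 ∧ u6 > 0 ∧ e2 > 0)) (q6 : ¬ (u4 < 0 ∧ u6 < 0 ∧ e2 < 0)) : e2 = 0 := by
  omega

lemma z3 (u0 u3 u5 e3 e5 : ℤ) (x0 : u0 = e3 + e5) (x3 : u3 = e5) (x5 : u5 + e3 = 0)
    (p4 : ¬ (u0 > 0 ∧ e3 > 0)) (q4 : ¬ (u0 < 0 ∧ e3 < 0))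
    (p7 : ¬ (u3 > 0 ∧ u5 > 0 ∧ e5 > 0)) (q7 : ¬ (u3 < 0 ∧ u5 < 0 ∧ e5 < 0)) : e3 = 0 := by
  omega

lemma z5 (u0 u3 e5 : ℤ) (x0 : u0 = e5) (x3 : u3 = e5)
    (p5 : ¬ (u0 > 0 ∧ u3 > 0 ∧ e5 > 0)) (q5 : ¬ (u0 < 0 ∧ u3 < 0 ∧ e5 < 0)) : e5 = 0 := by
  omega

/-- sign analysis: nonnegative half -/
lemma uniqZ (u0 u1 u2 u3 u4 u5 u6 e0 e1 e2 e3 e4 e5 : ℤ)
    (hs : e0 + e1 + e2 + e3 + e4 + e5 = 0) (h4 : 0 ≤ e4)
    (x0 : u0 + e0 + e1 + e2 = 0) (x1 : u1 + e0 + e2 + e4 = 0) (x2 : u2 + e1 + e3 + e5 = 0)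
    (x3 : u3 + e0 + e1 + e3 = 0) (x4 : u4 + e4 + e5 = 0) (x5 : u5 + e2 + e3 = 0)
    (x6 : u6 + e4 + e5 = 0)
    (p1 : ¬ (u1 > 0 ∧ e1 > 0)) (q1 : ¬ (u1 < 0 ∧ e1 < 0))
    (p2 : ¬ (u3 > 0 ∧ e2 > 0)) (q2 : ¬ (u3 < 0 ∧ e2 < 0))
    (p3 : ¬ (u0 > 0 ∧ u3 > 0 ∧ e4 > 0))
    (p4 : ¬ (u0 > 0 ∧ e3 > 0)) (q4 : ¬ (u0 < 0 ∧ e3 < 0))
    (p5 : ¬ (u0 > 0 ∧ u3 > 0 ∧ e5 > 0)) (q5 : ¬ (u0 < 0 ∧ u3 < 0 ∧ e5 < 0))
    (p6 : ¬ (u4 > 0 ∧ u6 > 0 ∧ e2 > 0)) (q6 : ¬ (u4 < 0 ∧ u6 < 0 ∧ e2 < 0))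
    (p7 : ¬ (u3 > 0 ∧ u5 > 0 ∧ e5 > 0)) (q7 : ¬ (u3 < 0 ∧ u5 < 0 ∧ e5 < 0))
    (p8 : ¬ (u2 > 0 ∧ e4 > 0)) (p9 : ¬ (e1 > 0 ∧ e4 > 0)) :
    e0 = 0 ∧ e1 = 0 ∧ e2 = 0 ∧ e3 = 0 ∧ e4 = 0 ∧ e5 = 0 := by
  have h4' : e4 = 0 := by
    by_contra hne
    exact z4 u0 u2 u3 e0 e1 e2 e3 e4 e5 u4 u6 hs x0 x2 x3 x4 x6
      (lt_of_le_of_ne h4 (Ne.symm hne)) p9 p8 p4 p3 q6
  subst h4'
  clear p3 p8 p9 h4
  have h2' : e2 = 0 := z2 u3 u4 u6 e2 e5 (by linarith) (by linarith) (by linarith) p2 q2 p6 q6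
  subst h2'
  clear p2 q2 p6 q6
  have h3' : e3 = 0 := z3 u0 u3 u5 e3 e5 (by linarith) (by linarith) (by linarith) p4 q4 p7 q7
  subst h3'
  clear p4 q4 p7 q7
  have h5' : e5 = 0 := z5 u0 u3 e5 (by linarith) (by linarith) p5 q5
  subst h5'
  clear p5 q5
  omega

lemma std_unique_aux (a a' : Fin 7 →₀ ℕ) (b b' : Fin 6 →₀ ℕ) (h : Std a b) (h' : Std a' b')
    (hx : imgx ee a b = imgx ee a' b') (ht : imgt b = imgt b') (h4 : b' 4 ≤ b 4) :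
    a = a' ∧ b = b' := by
  rw [img_iff] at hx
  rw [imgt_eq, imgt_eq] at ht
  obtain ⟨x0, x1, x2, x3, x4, x5, x6⟩ := hx
  obtain ⟨s1, s2, s3, s4, s5, s6, s7, s8, s9⟩ := h
  obtain ⟨t1, t2, t3, t4, t5, t6, t7, t8, t9⟩ := h'
  have key := uniqZ ((a 0 : ℤ) - a' 0) ((a 1 : ℤ) - a' 1) ((a 2 : ℤ) - a' 2)
        ((a 3 : ℤ) - a' 3) ((a 4 : ℤ) - a' 4) ((a 5 : ℤ) - a' 5) ((a 6 : ℤ) - a' 6)
        ((b 0 : ℤ) - b' 0) ((b 1 : ℤ) - b' 1) ((b 2 : ℤ) - b' 2) ((b 3 : ℤ) - b' 3)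
        ((b 4 : ℤ) - b' 4) ((b 5 : ℤ) - b' 5)
        (by clear s1 s2 s3 s4 s5 s6 s7 s8 s9 t1 t2 t3 t4 t5 t6 t7 t8 t9; omega)
        (by clear s1 s2 s3 s4 s5 s6 s7 s8 s9 t1 t2 t3 t4 t5 t6 t7 t8 t9; omega)
        (by clear s1 s2 s3 s4 s5 s6 s7 s8 s9 t1 t2 t3 t4 t5 t6 t7 t8 t9; omega)
        (by clear s1 s2 s3 s4 s5 s6 s7 s8 s9 t1 t2 t3 t4 t5 t6 t7 t8 t9; omega)
        (by clear s1 s2 s3 s4 s5 s6 s7 s8 s9 t1 t2 t3 t4 t5 t6 t7 t8 t9; omega)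
        (by clear s1 s2 s3 s4 s5 s6 s7 s8 s9 t1 t2 t3 t4 t5 t6 t7 t8 t9; omega)
        (by clear s1 s2 s3 s4 s5 s6 s7 s8 s9 t1 t2 t3 t4 t5 t6 t7 t8 t9; omega)
        (by clear s1 s2 s3 s4 s5 s6 s7 s8 s9 t1 t2 t3 t4 t5 t6 t7 t8 t9; omega)
        (by clear s1 s2 s3 s4 s5 s6 s7 s8 s9 t1 t2 t3 t4 t5 t6 t7 t8 t9; omega)
        (sgn2 s1) (sgn2' t1) (sgn2 s2) (sgn2' t2) (sgn3 s3) (sgn2 s4) (sgn2' t4)
        (sgn3 s5) (sgn3' t5) (sgn3 s6) (sgn3' t6) (sgn3 s7) (sgn3' t7) (sgn2 s8) (sgn2 s9)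
  clear s1 s2 s3 s4 s5 s6 s7 s8 s9 t1 t2 t3 t4 t5 t6 t7 t8 t9
  obtain ⟨k0, k1, k2, k3, k4, k5⟩ := key
  constructor
  · ext i; fin_cases i <;> simp <;> omega
  · ext i; fin_cases i <;> simp <;> omega

lemma std_unique (a a' : Fin 7 →₀ ℕ) (b b' : Fin 6 →₀ ℕ) (h : Std a b) (h' : Std a' b')
    (hx : imgx ee a b = imgx ee a' b') (ht : imgt b = imgt b') : a = a' ∧ b = b' := by
  rcases le_total (b' 4) (b 4) with h4 | h4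
  · exact std_unique_aux a a' b b' h h' hx ht h4
  · have := std_unique_aux a' a b' b h' h hx.symm ht.symm h4
    exact ⟨this.1.symm, this.2.symm⟩

lemma rees_le_NN : reesIdeal (fam K ee) ≤ NN K := by
  apply rees_le_of_binomials
  intro a a' b b' hx ht
  obtain ⟨c, d, hs, hm⟩ := exists_std (K := K) _ a b rfl
  obtain ⟨c', d', hs', hm'⟩ := exists_std (K := K) _ a' b' rfl
  have h1 := rees_mem_img (NN_le_rees hm)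
  have h2 := rees_mem_img (NN_le_rees hm')
  obtain ⟨h3, h4⟩ := std_unique c c' d d' hs hs' (h1.1.symm.trans (hx.trans h2.1))
    (h1.2.symm.trans (ht.trans h2.2))
  subst h3 h4
  have : mon K a b - mon K a' b' = (mon K a b - mon K c d) - (mon K a' b' - mon K c d) := by ring
  rw [this]
  exact Ideal.sub_mem _ hm hm'

lemma rees_eq_NN : reesIdeal (fam K ee) = NN K := le_antisymm rees_le_NN NN_le_rees

end Pool.Agent.Lib.MP_75e24b_ag
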